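import Pool.Agent.FP.All

/-! The tautological rings of `M_25` and of the fibre square of the universal curve of genus 24
are not both Gorenstein. -/

open Pool.Agent.FP Pool.Agent.FP.St

theorem Pool.Agent.Results.MP_86e955_ag.NotGorenstein.result :
    (∀ g, 2 ≤ g → Nonempty (St.Taut g)) ∧
      ∀ (s : St.Taut 24) (t : St.Taut 25), ¬ (Gor (St.gens0 t) 23 ∧ Gor (St.gens2 s) 24) :=
  st_target target
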